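import Pool.Agent.Y437.AX.Stmt

/-!
# Axial algebras with the eigenvalues `0` and `1` only
-/

set_option autoImplicit false

namespace Pool.Agent.Y151.AX2

open Pool.Agent.H198R3.Axial Pool.Agent.Y437.AX

universe u

section

variable {F : Type u} [Field F] {L : FusionLaw F} {A : Type u}
  [NonUnitalNonAssocCommRing A] [Module F A] [IsScalarTower F A A] [SMulCommClass F A A]
  {X : Set A}

/-- The product of an axis with any element is a multiple of the axis. -/
theorem mul_axis (hL : L.carrier ⊆ {0, 1}) (h : IsPrimitiveAxial L X) {a : A} (ha : a ∈ X) (v : A) :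
    ∃ c : F, a * v = c • a := by
  obtain ⟨⟨ha0, haa, -, hsup, -⟩, hprim⟩ := h.1 a ha
  have hle : (⨆ l : L.carrier, eig F a (l : F)) ≤ eig F a 0 ⊔ eig F a 1 := by
    refine iSup_le fun l => ?_
    rcases hL l.2 with h0 | h1
    · rw [h0]
      exact le_sup_left
    · rw [Set.mem_singleton_iff.1 h1]
      exact le_sup_right
  rw [hsup] at hle
  obtain ⟨y, hy, z, hz, hyz⟩ := Submodule.mem_sup.1 (hle (Submodule.mem_top (x := v)))
  rw [hprim] at hz
  obtain ⟨c, rfl⟩ := Submodule.mem_span_singleton.1 hz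
  have hy' : a * y = (0 : F) • y := hy
  refine ⟨c, ?_⟩
  rw [← hyz, mul_add, hy', zero_smul, zero_add, mul_smul_comm, haa]

/-- Two different axes annihilate each other. -/
theorem mul_zero_of_ne (hL : L.carrier ⊆ {0, 1}) (h : IsPrimitiveAxial L X) {a b : A} (ha : a ∈ X)
    (hb : b ∈ X) (hab : a ≠ b) : a * b = 0 := by
  obtain ⟨c, hc⟩ := mul_axis hL h ha b
  obtain ⟨d, hd⟩ := mul_axis hL h hb a
  by_contra hne
  obtain ⟨⟨ha0, haa, -, -, -⟩, -⟩ := h.1 a ha
  obtain ⟨⟨hb0, hbb, -, -, -⟩, -⟩ := h.1 b hb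
  have hc0 : c ≠ 0 := by
    rintro rfl
    exact hne (by rw [hc, zero_smul])
  have e1 : c • a = d • b := by rw [← hc, ← hd, mul_comm]
  obtain ⟨e, he⟩ : ∃ e : F, a = e • b := ⟨c⁻¹ * d, by
    rw [mul_smul, ← e1, smul_smul, inv_mul_cancel₀ hc0, one_smul]⟩
  have e2 : a = e • a := by
    calc a = a * a := haa.symm
      _ = (e • b) * (e • b) := by rw [← he]
      _ = e • (e • (b * b)) := by rw [smul_mul_assoc, mul_smul_comm]
      _ = e • a := by rw [hbb, ← he]
  have e3 : (1 - e) • a = 0 := by
    rw [sub_smul, one_smul, ← e2, sub_self]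
  rcases smul_eq_zero.1 e3 with h1 | h1
  · apply hab
    rw [he, ← sub_eq_zero.1 h1, one_smul]
  · exact ha0 h1

theorem span_top (hL : L.carrier ⊆ {0, 1}) (h : IsPrimitiveAxial L X) :
    Submodule.span F X = ⊤ := by
  apply h.2 _ Submodule.subset_span
  intro u hu v hv
  induction hu using Submodule.span_induction with
  | mem a ha =>
    obtain ⟨c, hc⟩ := mul_axis hL h ha v
    rw [hc]
    exact Submodule.smul_mem _ _ (Submodule.subset_span ha)
  | zero =>
    rw [zero_mul]
    exact Submodule.zero_mem _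
  | add a b _ _ ha hb =>
    rw [add_mul]
    exact Submodule.add_mem _ ha hb
  | smul r a _ ha =>
    rw [smul_mul_assoc]
    exact Submodule.smul_mem _ _ ha

/-- The span of a set of axes is an ideal. -/
theorem ideal_span (hL : L.carrier ⊆ {0, 1}) (h : IsPrimitiveAxial L X) {Y : Set A} (hY : Y ⊆ X)
    (u : A) (hu : u ∈ Submodule.span F Y) (v : A) : u * v ∈ Submodule.span F Y := by
  induction hu using Submodule.span_induction with
  | mem a ha =>
    obtain ⟨c, hc⟩ := mul_axis hL h (hY ha) v
    rw [hc]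
    exact Submodule.smul_mem _ _ (Submodule.subset_span ha)
  | zero =>
    rw [zero_mul]
    exact Submodule.zero_mem _
  | add a b _ _ ha hb =>
    rw [add_mul]
    exact Submodule.add_mem _ ha hb
  | smul r a _ ha =>
    rw [smul_mul_assoc]
    exact Submodule.smul_mem _ _ ha

theorem mul_span_zero (hL : L.carrier ⊆ {0, 1}) (h : IsPrimitiveAxial L X) {Y Z : Set A}
    (hY : Y ⊆ X) (hZ : Z ⊆ X) (hYZ : ∀ a ∈ Y, ∀ b ∈ Z, a ≠ b) (u : A)
    (hu : u ∈ Submodule.span F Y) (v : A) (hv : v ∈ Submodule.span F Z) : u * v = 0 := by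
  induction hu using Submodule.span_induction with
  | mem a ha =>
    induction hv using Submodule.span_induction with
    | mem b hb => exact mul_zero_of_ne hL h (hY ha) (hZ hb) (hYZ a ha b hb)
    | zero => exact mul_zero _
    | add b b' _ _ hb hb' => rw [mul_add, hb, hb', add_zero]
    | smul r b _ hb => rw [mul_smul_comm, hb, smul_zero]
  | zero => exact zero_mul _
  | add b b' _ _ hb hb' => rw [add_mul, hb, hb', add_zero]
  | smul r b _ hb => rw [smul_mul_assoc, hb, smul_zero]

end

theorem h2 : St2.{u} := by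
  classical
  intro F _ L A _ _ _ _ X hL h hI
  obtain ⟨hnt, hI⟩ := hI
  have htop := span_top hL h
  have hne : X.Nonempty := by
    rw [Set.nonempty_iff_ne_empty]
    rintro rfl
    rw [Submodule.span_empty] at htop
    obtain ⟨x, hx⟩ := exists_ne (0 : A)
    apply hx
    have : x ∈ (⊤ : Submodule F A) := Submodule.mem_top
    rw [← htop] at this
    exact (Submodule.mem_bot F).1 this
  obtain ⟨a, ha⟩ := hne
  refine ⟨a, ?_⟩
  by_contra hXa
  obtain ⟨b, hb, hba⟩ : ∃ b ∈ X, b ≠ a := by
    by_contra hcon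
    push Not at hcon
    apply hXa
    ext y
    rw [Set.mem_singleton_iff]
    constructor
    · exact fun hy => hcon y hy
    · rintro rfl
      exact ha
  obtain ⟨⟨ha0, haa, -, -, -⟩, -⟩ := h.1 a ha
  obtain ⟨⟨hb0, -⟩, -⟩ := h.1 b hb
  have hY : ({a} : Set A) ⊆ X := Set.singleton_subset_iff.2 ha
  have hZ : X \ {a} ⊆ X := Set.sdiff_subset
  have hYZ : ∀ y ∈ ({a} : Set A), ∀ z ∈ X \ {a}, y ≠ z := by
    intro y hy z hz he
    exact hz.2 (by rw [← he]; exact hy)
  let I : Fin 2 → Submodule F A := ![Submodule.span F {a}, Submodule.span F (X \ {a})]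
  have hI0 : I 0 = Submodule.span F {a} := rfl
  have hI1 : I 1 = Submodule.span F (X \ {a}) := rfl
  have hdisj : Disjoint (Submodule.span F {a}) (Submodule.span F (X \ {a})) := by
    rw [Submodule.disjoint_def]
    intro x hx hx'
    obtain ⟨c, rfl⟩ := Submodule.mem_span_singleton.1 hx
    have := mul_span_zero hL h hY hZ hYZ a (Submodule.mem_span_singleton_self a) _ hx'
    rwa [mul_smul_comm, haa] at this
  refine hI 2 I le_rfl ?_ ?_ ?_ ?_ ?_
  · intro i
    fin_cases i
    · show Submodule.span F {a} ≠ ⊥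
      rw [Ne, Submodule.span_singleton_eq_bot]
      exact ha0
    · show Submodule.span F (X \ {a}) ≠ ⊥
      intro he
      have : b ∈ Submodule.span F (X \ {a}) := Submodule.subset_span ⟨hb, hba⟩
      rw [he] at this
      exact hb0 ((Submodule.mem_bot F).1 this)
  · intro i
    fin_cases i
    · exact fun u hu v => ideal_span hL h hY u hu v
    · exact fun u hu v => ideal_span hL h hZ u hu v
  · intro i j hij
    fin_cases i <;> fin_cases j
    · exact absurd rfl hij
    · exact fun u hu v hv => mul_span_zero hL h hY hZ hYZ u hu v hv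
    · exact fun u hu v hv => mul_span_zero hL h hZ hY (fun z hz y hy he => hYZ y hy z hz he.symm)
        u hu v hv
    · exact absurd rfl hij
  · rw [iSupIndep_pair (show (0 : Fin 2) ≠ 1 by decide) (by
      intro i
      fin_cases i
      · exact Or.inl rfl
      · exact Or.inr rfl)]
    exact hdisj
  · rw [eq_top_iff, ← htop, Submodule.span_le]
    intro x hx
    by_cases hxa : x = a
    · exact (le_iSup I 0) (Submodule.subset_span hxa)
    · exact (le_iSup I 1) (Submodule.subset_span ⟨hx, hxa⟩)

end Pool.Agent.Y151.AX2
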